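import Mathlib
import Pool.Agent.K4H22.Z.Count2

/-!
# Counting: few families are bad if few members of each line are bad
-/

set_option autoImplicit false
set_option linter.unusedSectionVars false

namespace Pool.Agent.K4H22.Y

open NumberField Module Pool.Agent.K4H22.Z Pool.Agent.W527 Pool.Agent.H204R3.CM Pool.Agent.H977R3.WN

noncomputable section

variable {p : ℕ} [Fact p.Prime] {I : Type} [Fintype I] {K : I → Type} [∀ i, Field (K i)]
  [∀ i, NumberField (K i)] [∀ i, IsCMField (K i)]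

open Classical in
/-- **Counting.** If on every line in the direction of `π₀` at most `g` families are bad, then the
proportion of the bad families is at most `C / n`. -/
theorem count_general {n₀ : ℕ} {π₀ : ∀ i, K i} (h₀ : π₀ ∈ Weil p K n₀)
    (hne : ∃ i, ∃ τ : K i →+* PadicAlgCl p, dv p n₀ π₀ i τ ≠ 0) (g : ℕ)
    (Bad : ℕ → (∀ i, K i) → Prop)
    (hfew : ∀ (n : ℕ) (w : ∀ i, K i) (S : Finset ℕ), (∀ j ∈ S, ∃ b, Bad n b ∧
      (fun i τ => dv p n w i τ - 2 * j * dv p n₀ π₀ i τ) = dv p n b) → S.card ≤ g) :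
    ∃ C : ℝ, 0 ≤ C ∧ ∀ n : ℕ,
      (n : ℝ) * (((WF p K n).filter fun π => Bad n π).card : ℝ) ≤
        C * (WF p K n).card := by
  let Y : ∀ i, K i := fun i => π₀ i ^ 2 / (p : K i) ^ n₀
  have hYs : ∀ i, IsSlide p (Y i) := fun i => slide_of_weil h₀ i
  have hYsl : ∀ i (τ : K i →+* PadicAlgCl p), sl τ (Y i) = dv p n₀ π₀ i τ := fun i τ =>
    sl_slide_of_weil h₀ i τ
  let X := Σ i, (K i →+* PadicAlgCl p)
  let R : ℝ := ∑ x : X, |dv p n₀ π₀ x.1 x.2|
  have hR0 : 0 ≤ R := Finset.sum_nonneg fun x _ => abs_nonneg _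
  have hRx : ∀ x : X, |dv p n₀ π₀ x.1 x.2| ≤ R := fun x =>
    Finset.single_le_sum (f := fun x : X => |dv p n₀ π₀ x.1 x.2|)
      (fun y _ => abs_nonneg _) (Finset.mem_univ x)
  -- the boundary pieces
  let Bd : ∀ n : ℕ, X → Finset (∀ i, K i) := fun n x =>
    (WF p K n).filter fun π => dv p n₀ π₀ x.1 x.2 < 0 ∧ sl x.2 (π x.1) < R
  have hbd : ∀ x : X, ∃ C : ℝ, 0 ≤ C ∧ ∀ n : ℕ, R < n → ((Bd n x).card : ℝ) * (n - R) ≤
      C * (WF p K n).card := by
    intro x
    by_cases hx : dv p n₀ π₀ x.1 x.2 < 0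
    · have hns : ¬ Same x.2 (cbar x.2) := by
        intro h
        have h1 := dv_cbar h₀ x.1 x.2
        rw [dv_eq, dv_eq, ← h.sl_eq] at h1
        rw [dv_eq] at hx
        linarith
      obtain ⟨C, hC, h⟩ := boundary x.1 x.2 hns R hR0
      refine ⟨C, hC, fun n hn => le_trans ?_ (h n hn)⟩
      refine mul_le_mul_of_nonneg_right ?_ (by linarith)
      have : (Bd n x).card ≤ ((WF p K n).filter fun π => sl x.2 (π x.1) < R).card := by
        apply Finset.card_le_card
        intro π hπ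
        rw [Finset.mem_filter] at hπ ⊢
        exact ⟨hπ.1, hπ.2.2⟩
      exact_mod_cast this
    · refine ⟨0, le_rfl, fun n hn => ?_⟩
      have : Bd n x = ∅ := by
        apply Finset.filter_false_of_mem
        rintro π _ ⟨h, -⟩
        exact hx h
      rw [this, Finset.card_empty, Nat.cast_zero, zero_mul, zero_mul]
  choose C hC0 hC using hbd
  have hCs : 0 ≤ ∑ x : X, C x := Finset.sum_nonneg fun x _ => hC0 x
  refine ⟨g * (∑ x : X, C x) + R, by positivity, fun n => ?_⟩
  -- the bad set and the boundary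
  set B := (WF p K n).filter fun π => Bad n π with hB
  have hBle : (B.card : ℝ) ≤ (WF p K n).card := by
    exact_mod_cast Finset.card_filter_le _ _
  have hW0 : (0 : ℝ) ≤ (WF p K n).card := Nat.cast_nonneg _
  have hB0 : (0 : ℝ) ≤ B.card := Nat.cast_nonneg _
  rcases le_or_gt (n : ℝ) R with hnR | hnR
  · calc (n : ℝ) * B.card ≤ R * (WF p K n).card := mul_le_mul hnR hBle hB0 hR0
      _ ≤ _ := by
        refine mul_le_mul_of_nonneg_right ?_ hW0
        have : 0 ≤ (g : ℝ) * ∑ x : X, C x := by positivity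
        linarith
  · -- every tuple leaves the set of the Weil tuples
    obtain ⟨i₀, τ₀, hτ₀⟩ := hne
    obtain ⟨τ₁, hτ₁⟩ : ∃ τ₁ : K i₀ →+* PadicAlgCl p, dv p n₀ π₀ i₀ τ₁ < 0 := by
      rcases lt_or_gt_of_ne hτ₀ with h | h
      · exact ⟨τ₀, h⟩
      · refine ⟨cbar τ₀, ?_⟩
        rw [dv_cbar h₀]
        linarith
    have hleave : ∀ π ∈ WF p K n, ∃ j : ℕ, (Y ^ (j + 1) * π) ∉ Weil p K n := by
      intro π hπ
      rw [mem_WF] at hπ
      obtain ⟨j, hj⟩ := exists_nat_gt (n / (-(dv p n₀ π₀ i₀ τ₁)))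
      refine ⟨j, fun h => ?_⟩
      have h1 := sl_weil_nonneg h i₀ τ₁
      change 0 ≤ sl τ₁ (Y i₀ ^ (j + 1) * π i₀) at h1
      have h2 : sl τ₁ (Y i₀ ^ (j + 1)) = ((j + 1 : ℕ) : ℝ) * dv p n₀ π₀ i₀ τ₁ := by
        rw [sl_pow, hYsl]
      rw [sl_mul τ₁ (pow_ne_zero _ (hYs i₀).ne_zero) (weil_ne hπ i₀), h2] at h1
      have h3 : sl τ₁ (π i₀) ≤ n := by
        have h4 := sl_weil_nonneg hπ i₀ (cbar τ₁)
        rw [sl_weil_cbar hπ] at h4
        linarith
      rw [div_lt_iff₀ (by linarith)] at hj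
      push_cast at h1
      nlinarith
    let jj : (∀ i, K i) → ℕ := fun π =>
      if h : ∃ j : ℕ, (Y ^ (j + 1) * π) ∉ Weil p K n then Nat.find h else 0
    have hjj1 : ∀ π ∈ WF p K n, (Y ^ (jj π + 1) * π) ∉ Weil p K n := by
      intro π hπ
      have h := hleave π hπ
      simp only [jj, dif_pos h]
      exact Nat.find_spec h
    have hjj2 : ∀ π ∈ WF p K n, (Y ^ (jj π) * π) ∈ Weil p K n := by
      intro π hπ
      have h := hleave π hπ
      rcases Nat.eq_zero_or_pos (jj π) with h0 | h0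
      · rw [h0, pow_zero, one_mul]
        exact mem_WF.1 hπ
      · have h1 : jj π - 1 < Nat.find h := by
          have : jj π = Nat.find h := by simp only [jj, dif_pos h]
          omega
        have h2 := Nat.find_min h h1
        rw [not_not] at h2
        rwa [Nat.sub_add_cancel h0] at h2
    let f : (∀ i, K i) → (∀ i, K i) := fun π => Y ^ (jj π) * π
    set D := (WF p K n).filter fun w => (Y * w) ∉ Weil p K n with hD
    have hfD : ∀ π ∈ B, f π ∈ D := by
      intro π hπ
      rw [hB, Finset.mem_filter] at hπ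
      rw [hD, Finset.mem_filter]
      refine ⟨mem_WF.2 (hjj2 π hπ.1), ?_⟩
      have h1 := hjj1 π hπ.1
      rw [pow_succ', mul_assoc] at h1
      exact h1
    have hfib : ∀ w ∈ D, (B.filter fun π => f π = w).card ≤ g := by
      intro w hw
      have hinj : Set.InjOn jj (B.filter fun π => f π = w : Finset (∀ i, K i)) := by
        intro π hπ π' hπ' h
        rw [Finset.mem_coe, Finset.mem_filter] at hπ hπ'
        have h1 : Y ^ jj π * π = Y ^ jj π' * π' := hπ.2.trans hπ'.2.symm
        rw [h] at h1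
        exact mulPow_injective Y (fun i => (hYs i).ne_zero) (jj π') h1
      rw [← Finset.card_image_of_injOn hinj]
      refine hfew n w _ fun j hj => ?_
      rw [Finset.mem_image] at hj
      obtain ⟨b, hb, rfl⟩ := hj
      rw [Finset.mem_filter, hB, Finset.mem_filter, mem_WF] at hb
      have h1 : (fun i τ => dv p n w i τ - 2 * (jj b : ℕ) * dv p n₀ π₀ i τ) = dv p n b := by
        funext i τ
        have h2 : w i = Y i ^ (jj b) * b i := by
          rw [← hb.2]
          rfl
        rw [dv_eq n w, dv_eq n b, h2, sl_mul τ (pow_ne_zero _ (hYs i).ne_zero)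
          (weil_ne hb.1.1 i), sl_pow, hYsl]
        ring
      exact ⟨b, hb.1.2, h1⟩
    have hBD : B.card ≤ g * D.card :=
      Finset.card_le_mul_card_image_of_maps_to hfD g hfib
    have hcov : D ⊆ Finset.univ.biUnion (Bd n) := by
      intro π hπ
      rw [hD, Finset.mem_filter] at hπ
      have hπW := mem_WF.1 hπ.1
      have h2 : ¬ ∀ i, ∀ τ : K i →+* PadicAlgCl p, 0 ≤ sl τ (Y i) + sl τ (π i) := by
        intro h3
        exact hπ.2 (mul_mem_weil hπW hYs h3)
      push Not at h2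
      obtain ⟨i, τ, h3⟩ := h2
      rw [hYsl] at h3
      have h0 := sl_weil_nonneg hπW i τ
      rw [Finset.mem_biUnion]
      refine ⟨⟨i, τ⟩, Finset.mem_univ _, Finset.mem_filter.2 ⟨hπ.1, ?_, ?_⟩⟩
      · change dv p n₀ π₀ i τ < 0
        linarith
      · change sl τ (π i) < R
        have h5 := neg_abs_le (dv p n₀ π₀ i τ)
        have h9 := hRx ⟨i, τ⟩
        change |dv p n₀ π₀ i τ| ≤ R at h9
        linarith
    have h1 : (D.card : ℝ) ≤ ∑ x : X, ((Bd n x).card : ℝ) := by
      have h2 := (Finset.card_le_card hcov).trans Finset.card_biUnion_le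
      exact_mod_cast h2
    have h4 : (∑ x : X, ((Bd n x).card : ℝ)) * (n - R) ≤ (∑ x : X, C x) * (WF p K n).card := by
      rw [Finset.sum_mul, Finset.sum_mul]
      exact Finset.sum_le_sum fun x _ => hC x n hnR
    have h5 : 0 < (n : ℝ) - R := by linarith
    have h6 : (B.card : ℝ) ≤ g * D.card := by exact_mod_cast hBD
    have h7 : (B.card : ℝ) * (n - R) ≤ g * ((∑ x : X, C x) * (WF p K n).card) := by
      calc (B.card : ℝ) * (n - R) ≤ (g * D.card) * (n - R) :=
            mul_le_mul_of_nonneg_right h6 h5.le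
        _ ≤ (g * ∑ x : X, ((Bd n x).card : ℝ)) * (n - R) := by
            refine mul_le_mul_of_nonneg_right ?_ h5.le
            exact mul_le_mul_of_nonneg_left h1 (Nat.cast_nonneg g)
        _ = g * ((∑ x : X, ((Bd n x).card : ℝ)) * (n - R)) := by ring
        _ ≤ _ := mul_le_mul_of_nonneg_left h4 (Nat.cast_nonneg g)
    have h8 : R * (B.card : ℝ) ≤ R * (WF p K n).card := mul_le_mul_of_nonneg_left hBle hR0
    calc (n : ℝ) * B.card = B.card * (n - R) + R * B.card := by ring
      _ ≤ g * ((∑ x : X, C x) * (WF p K n).card) + R * (WF p K n).card := add_le_add h7 h8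
      _ = _ := by ring

end

end Pool.Agent.K4H22.Y
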