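import Mathlib
import Pool.Agent.K4H22.Z.Defs

/-!
# Tate classes in a bounded number of variables, and locally balanced sequences
-/

set_option autoImplicit false

namespace Pool.Agent.K4H22.ZeroOne

open NumberField Module

noncomputable section

variable {I : Type} {K : I → Type} [∀ i, Field (K i)]

/-- All Tate classes, over all finite extensions (of degree `s`), in multilinear forms in
`r ≤ m` variables `v k ∈ V (t k)`, where the `V i` are Frobenius modules on which the Frobenius `F i`
is diagonalisable with eigenvalues conjugate to `π i`, are linear combinations of products of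
pairings. -/
def PairingsGenerateUpTo (p n m : ℕ) (π : ∀ i, K i) : Prop :=
  ∀ {Ω : Type} [Field Ω] [IsAlgClosed Ω] [CharZero Ω] (V : I → Type) [∀ i, AddCommGroup (V i)]
    [∀ i, Module Ω (V i)] [∀ i, FiniteDimensional Ω (V i)] (F : ∀ i, V i →ₗ[Ω] V i),
    (∀ i, Submodule.span Ω {v : V i | ∃ σ : K i →+* Ω, F i v = σ (π i) • v} = ⊤) →
    ∀ {r : ℕ} (t : Fin r → I), r ≤ m → ∀ s : ℕ, 0 < s → ∀ c : Ω, c ^ 2 = ((p : Ω) ^ n) ^ r →
    ∀ φ : MultilinearMap Ω (fun k => V (t k)) Ω,
      (∀ v, φ (fun k => (F (t k) ^ s) (v k)) = c ^ s * φ v) →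
      φ ∈ Submodule.span Ω {ψ | IsProductOfPairings V F ((p : Ω) ^ n) t ψ}

/-- The family `π` of Weil `p ^ n`-numbers is good up to `m` variables: all powers of `π i` generate
the field `K i`, and the pairings generate all Tate classes in at most `m` variables. -/
def GoodUpTo [∀ i, NumberField (K i)] (p n m : ℕ) (π : ∀ i, K i) : Prop :=
  (∀ i, ∀ s : ℕ, 0 < s → IntermediateField.adjoin ℚ {π i ^ s} = ⊤) ∧ PairingsGenerateUpTo p n m π

variable [∀ i, NumberField (K i)] [∀ i, IsCMField (K i)]

/-- A sequence of embeddings of the fields `K i` into the algebraic numbers is balanced if every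
embedding occurs in it as often as the complex conjugate embedding. -/
def Balanced {r : ℕ} (x : Fin r → Σ i, (K i →+* AlgebraicClosure ℚ)) : Prop :=
  ∀ y : Σ i, (K i →+* AlgebraicClosure ℚ),
    Nat.card {k // x k = y} = Nat.card {k // x k = ⟨y.1, cbar y.2⟩}

/-- A sequence of embeddings of the fields `K i` into the algebraic numbers is `p`-locally balanced
if, for each embedding `J` of the algebraic numbers into the algebraic closure of `ℚ_p`, the places
`v` and the complex conjugate places of the fields `K i` occur equally often among the places given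
by the embeddings `J ∘ x k`. In other words the sum over `k` of the values at `J ∘ x k` is zero for
all functions `e` of the places which change the sign under complex conjugation. -/
def LocallyBalanced (p : ℕ) [Fact p.Prime] {r : ℕ}
    (x : Fin r → Σ i, (K i →+* AlgebraicClosure ℚ)) : Prop :=
  ∀ e : ∀ i, (K i →+* PadicAlgCl p) → ℚ, (∀ i τ, e i (cbar τ) = - e i τ) →
    (∀ i τ τ', Same τ τ' → e i τ = e i τ') →
    ∀ J : AlgebraicClosure ℚ →+* PadicAlgCl p, ∑ k, e (x k).1 (J.comp (x k).2) = 0

end

end Pool.Agent.K4H22.ZeroOne
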