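import Mathlib
import Pool.Agent.K4H22.Y.Defs
import Pool.Agent.K4H22.Z.Bridge

/-!
# Sequences with vanishing slopes and Tate classes: the easy direction
-/

set_option autoImplicit false
set_option linter.unusedSectionVars false

namespace Pool.Agent.K4H22.Y

open NumberField Module Pool.Agent.W527 Pool.Agent.K4H22.Z Pool.Agent.H194R3.CM Pool.Agent.H485R3
open MultilinearMap
open Pool.Agent.K4H22.ZeroOne (cbar)

noncomputable section

variable {p : ℕ} [Fact p.Prime] {I : Type} [Fintype I] {K : I → Type} [∀ i, Field (K i)]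
  [∀ i, NumberField (K i)] [∀ i, IsCMField (K i)]

/-- The slopes of the product of the conjugates belonging to a sequence vanish. -/
def Vanish (p n : ℕ) [Fact p.Prime] (π : ∀ i, K i) {r : ℕ}
    (x : Fin r → Σ i, (K i →+* AlgebraicClosure ℚ)) : Prop :=
  ∀ J : AlgebraicClosure ℚ →+* PadicAlgCl p, ∑ k, dv p n π (x k).1 (J.comp (x k).2) = 0

open Classical in
theorem root_of_vanish {n : ℕ} {π : ∀ i, K i} (hW : π ∈ Z.Weil p K n) {r : ℕ}
    (x : Fin r → Σ i, (K i →+* AlgebraicClosure ℚ)) (hx : Vanish p n π x) :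
    ∃ M : ℕ, 0 < M ∧ (∏ k, (x k).2 (π (x k).1)) ^ (2 * M) =
      (((p : AlgebraicClosure ℚ) ^ n) ^ r) ^ M := by
  let X := Σ i, (K i →+* AlgebraicClosure ℚ)
  let c : X → ℤ := fun y => ((Finset.univ.filter fun k => x k = y).card : ℤ)
  have hsum : ∀ g : X → ℝ, ∑ y : X, (c y : ℝ) * g y = ∑ k, g (x k) := by
    intro g
    rw [← Finset.sum_fiberwise_of_maps_to (s := Finset.univ) (t := Finset.univ) (g := x)
      (fun _ _ => Finset.mem_univ _)]
    refine Finset.sum_congr rfl fun y _ => ?_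
    rw [Finset.sum_congr rfl fun k hk => by rw [(Finset.mem_filter.1 hk).2], Finset.sum_const,
      nsmul_eq_mul]
    simp only [c]
    push_cast
    rfl
  obtain ⟨M, hM, h⟩ := root_of_unity hW c (fun J => by
    rw [hsum fun y => dv p n π y.1 (J.comp y.2)]
    exact hx J)
  refine ⟨M, hM, ?_⟩
  have hp0 : (p : AlgebraicClosure ℚ) ≠ 0 := by exact_mod_cast (Fact.out : p.Prime).ne_zero
  have hprod : ∏ y : X, (y.2 (π y.1) ^ 2 / (p : AlgebraicClosure ℚ) ^ n) ^ c y =
      ∏ k, ((x k).2 (π (x k).1) ^ 2 / (p : AlgebraicClosure ℚ) ^ n) := by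
    rw [← Finset.prod_fiberwise_of_maps_to (s := Finset.univ) (t := Finset.univ) (g := x)
      (fun _ _ => Finset.mem_univ _)
      (fun k => (x k).2 (π (x k).1) ^ 2 / (p : AlgebraicClosure ℚ) ^ n)]
    refine Finset.prod_congr rfl fun y _ => ?_
    rw [Finset.prod_congr rfl fun k hk => by rw [(Finset.mem_filter.1 hk).2], Finset.prod_const]
    simp only [c]
    rw [zpow_natCast]
  rw [hprod, Finset.prod_div_distrib, Finset.prod_const, Finset.card_univ, Fintype.card_fin,
    Finset.prod_pow, div_pow, div_eq_one_iff_eq (pow_ne_zero _ (pow_ne_zero _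
      (pow_ne_zero _ hp0)))] at h
  rw [pow_mul]
  exact h

theorem balanced_of_upTo {n m : ℕ} {π : ∀ i, K i} (hW : π ∈ Z.Weil p K n)
    (hgen : ∀ i, IntermediateField.adjoin ℚ {π i} = ⊤)
    (hg : ZeroOne.PairingsGenerateUpTo p n m π) {r : ℕ} (hr : r ≤ m)
    (x : Fin r → Σ i, (K i →+* AlgebraicClosure ℚ)) (hx : Vanish p n π x) :
    ZeroOne.Balanced x := by
  classical
  have _ := isAlg
  obtain ⟨M, hM, hprod⟩ := root_of_vanish hW x hx
  let ψ : AlgebraicClosure ℚ →+* ℂ := (IsAlgClosed.lift : AlgebraicClosure ℚ →ₐ[ℚ] ℂ)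
  let y : Fin r → Σ i, (K i →+* ℂ) := fun k => ⟨(x k).1, ψ.comp (x k).2⟩
  have hprod' : (∏ k, (y k).2 (π (y k).1)) ^ (2 * M) = (((p : ℂ) ^ n) ^ r) ^ M := by
    have h1 := congrArg ψ hprod
    rw [map_pow, map_prod, map_pow, map_pow, map_pow, map_natCast] at h1
    exact h1
  obtain ⟨C, hC⟩ := IsAlgClosed.exists_pow_nat_eq (((p : ℂ) ^ n) ^ r) (n := 2) two_pos
  let V : I → Type := fun i => (K i →+* ℂ) → ℂ
  let F : ∀ i, V i →ₗ[ℂ] V i := fun i => LinearMap.pi fun σ => (σ (π i)) • LinearMap.proj σ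
  have hFapp : ∀ i (v : V i) (σ : K i →+* ℂ), F i v σ = σ (π i) * v σ := fun i v σ => rfl
  have hFpow : ∀ i (s : ℕ) (v : V i) (σ : K i →+* ℂ), (F i ^ s) v σ = σ (π i) ^ s * v σ := by
    intro i s
    induction s with
    | zero => intro v σ; simp
    | succ s ih =>
      intro v σ
      rw [pow_succ', Module.End.mul_apply, hFapp, ih, pow_succ']
      ring
  have hFspan : ∀ i, Submodule.span ℂ {v : V i | ∃ σ : K i →+* ℂ, F i v = σ (π i) • v} = ⊤ := by
    intro i
    rw [eq_top_iff]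
    intro v _
    have h1 : v = ∑ σ : K i →+* ℂ, v σ • (Pi.single σ (1 : ℂ) : V i) := by
      funext τ
      rw [Finset.sum_apply, Finset.sum_eq_single τ]
      · simp
      · intro b _ hb
        simp [Pi.single_eq_of_ne (Ne.symm hb)]
      · intro h
        exact absurd (Finset.mem_univ _) h
    rw [h1]
    refine Submodule.sum_mem _ fun σ _ => Submodule.smul_mem _ _ (Submodule.subset_span ⟨σ, ?_⟩)
    funext τ
    rw [hFapp, Pi.smul_apply, smul_eq_mul]
    by_cases h2 : τ = σ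
    · rw [h2]
    · rw [Pi.single_eq_of_ne h2, mul_zero, mul_zero]
  let t : Fin r → I := fun k => (y k).1
  let φ : MultilinearMap ℂ (fun k => V (t k)) ℂ :=
    (MultilinearMap.mkPiAlgebra ℂ (Fin r) ℂ).compLinearMap (fun k => LinearMap.proj (y k).2)
  have hφ : ∀ v, φ v = ∏ k, v k (y k).2 := by
    intro v
    change (MultilinearMap.mkPiAlgebra ℂ (Fin r) ℂ) (fun k => v k (y k).2) = _
    rw [MultilinearMap.mkPiAlgebra_apply]
  have hmem := hg V F hFspan t hr (2 * M) (by omega) C hC φ (by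
    intro v
    rw [hφ, hφ, pow_mul C, hC, ← hprod', ← Finset.prod_pow, ← Finset.prod_mul_distrib]
    refine Finset.prod_congr rfl fun k _ => ?_
    exact hFpow _ _ _ _)
  let v₀ : ∀ k, V (t k) := fun k => Pi.single (y k).2 1
  have hv₀ : φ v₀ = 1 := by
    rw [hφ]
    refine Finset.prod_eq_one fun k _ => ?_
    change (Pi.single (y k).2 (1 : ℂ) : V (t k)) (y k).2 = 1
    rw [Pi.single_eq_same]
  have hFv₀ : ∀ k, F (t k) (v₀ k) = (y k).2 (π (t k)) • v₀ k := by
    intro k
    funext τ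
    rw [hFapp, Pi.smul_apply, smul_eq_mul]
    by_cases h2 : τ = (y k).2
    · rw [h2]
    · have h3 : v₀ k τ = 0 := Pi.single_eq_of_ne h2 1
      rw [h3, mul_zero, mul_zero]
  intro x₀
  by_contra hne
  have hzero : ∀ ψ' ∈ {ψ' | ZeroOne.IsProductOfPairings V F ((p : ℂ) ^ n) t ψ'}, ψ' v₀ = 0 := by
    rintro ψ' ⟨τ, B, h1, h2, h3, h4, h5⟩
    by_contra hne'
    rw [h5] at hne'
    have h6 : ∀ k, k < τ k → B k (v₀ k) (v₀ (τ k)) ≠ 0 := by
      intro k hk
      exact (Finset.prod_ne_zero_iff.1 hne') k (Finset.mem_filter.2 ⟨Finset.mem_univ _, hk⟩)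
    have h7 : ∀ k, k < τ k → y (τ k) = bar (y k) := by
      intro k hk
      refine eq_bar_of_mul (m := fun _ => n) hgen (fun i => (hW i).2) _ _ (h3 k) ?_
      have h8 := h4 k (v₀ k) (v₀ (τ k))
      rw [hFv₀, hFv₀, map_smul, map_smul, LinearMap.smul_apply, smul_eq_mul, smul_eq_mul,
        ← mul_assoc] at h8
      have h9 := mul_right_cancel₀ (h6 k hk) h8
      exact (mul_comm _ _).trans h9
    -- back to the algebraic numbers
    have hxb : ∀ k l, y l = bar (y k) → x l = ⟨(x k).1, cbar (x k).2⟩ := by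
      intro k l h
      have h10 : (⟨(x l).1, ψ.comp (x l).2⟩ : Σ i, (K i →+* ℂ)) =
          ⟨(x k).1, ComplexEmbedding.conjugate (ψ.comp (x k).2)⟩ := h
      have h11 : ComplexEmbedding.conjugate (ψ.comp (x k).2) = ψ.comp (cbar (x k).2) := by
        refine RingHom.ext fun z => ?_
        exact (IsCMField.complexEmbedding_complexConj (K (x k).1) (ψ.comp (x k).2) z).symm
      rw [h11] at h10
      generalize x l = a at h10 ⊢
      generalize x k = b at h10 ⊢
      obtain ⟨i, f⟩ := a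
      obtain ⟨j, g⟩ := b
      obtain ⟨h12, h13⟩ := Sigma.mk.inj h10
      dsimp only at h12
      subst h12
      have h14 := eq_of_heq h13
      congr 1
      refine RingHom.ext fun z => ψ.injective ?_
      exact RingHom.congr_fun h14 z
    have hbb : ∀ z : Σ i, (K i →+* AlgebraicClosure ℚ),
        (⟨z.1, cbar (cbar z.2)⟩ : Σ i, (K i →+* AlgebraicClosure ℚ)) = z := by
      rintro ⟨i, g⟩
      change (⟨i, Pool.Agent.H204R3.CM.cbar (Pool.Agent.H204R3.CM.cbar g)⟩ :
        Σ i, (K i →+* AlgebraicClosure ℚ)) = ⟨i, g⟩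
      rw [Pool.Agent.H204R3.CM.cbar_cbar]
    have h8 : ∀ k, x (τ k) = ⟨(x k).1, cbar (x k).2⟩ := by
      intro k
      rcases lt_trichotomy k (τ k) with h | h | h
      · exact hxb _ _ (h7 k h)
      · exact absurd h.symm (h2 k)
      · have h10 := hxb _ _ (h7 (τ k) (by rw [h1]; exact h))
        rw [h1] at h10
        rw [h10]
        exact (hbb _).symm
    apply hne
    refine Nat.card_congr (τ.subtypeEquiv fun k => ?_)
    rw [h8]
    constructor
    · intro h
      rw [h]
    · intro h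
      rw [← hbb (x k), ← hbb x₀]
      have h9 := congrArg (fun z : Σ i, (K i →+* AlgebraicClosure ℚ) =>
        (⟨z.1, cbar z.2⟩ : Σ i, (K i →+* AlgebraicClosure ℚ))) h
      exact h9
  have hφ0 : φ v₀ = 0 := by
    have h1 : ∀ ψ' ∈ Submodule.span ℂ
        {ψ' | ZeroOne.IsProductOfPairings V F ((p : ℂ) ^ n) t ψ'}, ψ' v₀ = 0 := by
      intro ψ' hψ
      induction hψ using Submodule.span_induction with
      | mem y h => exact hzero y h
      | zero => rfl
      | add y z _ _ hy hz => rw [add_apply, hy, hz, add_zero]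
      | smul b y _ hy => rw [smul_apply, hy, smul_zero]
    exact h1 φ hmem
  rw [hv₀] at hφ0
  exact one_ne_zero hφ0

end

end Pool.Agent.K4H22.Y
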