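import Mathlib
import Pool.Agent.K4H22.Y.Neg

/-!
# Sequences with vanishing slopes and Tate classes: the other direction
-/

set_option autoImplicit false
set_option linter.unusedSectionVars false

namespace Pool.Agent.K4H22.Y

open NumberField Module Pool.Agent.W527 Pool.Agent.K4H22.Z Pool.Agent.H485R3
open Pool.Agent.K4H22.ZeroOne (cbar)

noncomputable section

variable {p : ℕ} [Fact p.Prime] {I : Type} [Fintype I] {K : I → Type} [∀ i, Field (K i)]
  [∀ i, NumberField (K i)] [∀ i, IsCMField (K i)]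

theorem powers_of_balanced {n : ℕ} {π : ∀ i, K i} (hW : π ∈ Z.Weil p K n)
    (hbal : ∀ x : Fin 2 → Σ i, (K i →+* AlgebraicClosure ℚ), Vanish p n π x →
      ZeroOne.Balanced x) (i : I) (s : ℕ) (hs : 0 < s) :
    IntermediateField.adjoin ℚ {π i ^ s} = ⊤ := by
  classical
  by_contra hcon
  set F := IntermediateField.adjoin ℚ {π i ^ s} with hF
  have hlt : 1 < finrank F (K i) := by
    have h1 : finrank F (K i) ≠ 1 := by
      intro h1
      exact hcon (IntermediateField.finrank_eq_one_iff_eq_top.1 h1)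
    have h2 : 0 < finrank F (K i) := finrank_pos
    omega
  let _ : Algebra F (AlgebraicClosure ℚ) :=
    ((Classical.arbitrary (K i →+* AlgebraicClosure ℚ)).comp (algebraMap F (K i))).toAlgebra
  have hcard : Fintype.card (K i →ₐ[F] AlgebraicClosure ℚ) = finrank F (K i) :=
    AlgHom.card F (K i) (AlgebraicClosure ℚ)
  rw [← hcard] at hlt
  obtain ⟨φ, φ', hne⟩ := Fintype.one_lt_card_iff.1 hlt
  have hx : φ (π i ^ s) = φ' (π i ^ s) := by
    let y : F := ⟨π i ^ s, IntermediateField.mem_adjoin_simple_self ℚ _⟩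
    have e1 : φ (algebraMap F (K i) y) = algebraMap F (AlgebraicClosure ℚ) y := φ.commutes y
    have e2 : φ' (algebraMap F (K i) y) = algebraMap F (AlgebraicClosure ℚ) y := φ'.commutes y
    exact e1.trans e2.symm
  let f : K i →+* AlgebraicClosure ℚ := φ.toRingHom
  let f' : K i →+* AlgebraicClosure ℚ := φ'.toRingHom
  have hne' : f ≠ f' := by
    intro h
    exact hne (AlgHom.ext fun x => RingHom.congr_fun h x)
  have hfx : f (π i) ^ s = f' (π i) ^ s := by
    rw [← map_pow, ← map_pow]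
    exact hx
  let x : Fin 2 → Σ i, (K i →+* AlgebraicClosure ℚ) := ![⟨i, f⟩, ⟨i, cbar f'⟩]
  have hb := hbal x (by
    intro J
    rw [Fin.sum_univ_two]
    change dv p n π i (J.comp f) + dv p n π i (J.comp (Pool.Agent.H204R3.CM.cbar f')) = 0
    have h1 : J.comp (Pool.Agent.H204R3.CM.cbar f') =
      Pool.Agent.H204R3.CM.cbar (J.comp f') := rfl
    have h2 : ‖(J.comp f) (π i)‖ = ‖(J.comp f') (π i)‖ := by
      have h3 : (J.comp f) (π i) ^ s = (J.comp f') (π i) ^ s := by
        change J (f (π i)) ^ s = J (f' (π i)) ^ s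
        rw [← map_pow J, ← map_pow J, hfx]
      have h4 := congrArg norm h3
      rw [norm_pow, norm_pow] at h4
      exact (pow_left_inj₀ (norm_nonneg _) (norm_nonneg _) hs.ne').1 h4
    rw [h1, dv_cbar hW]
    unfold dv
    rw [h2]
    ring) ⟨i, f⟩
  have h1 : 0 < Nat.card {k // x k = (⟨i, f⟩ : Σ i, (K i →+* AlgebraicClosure ℚ))} := by
    haveI : Nonempty {k // x k = (⟨i, f⟩ : Σ i, (K i →+* AlgebraicClosure ℚ))} := ⟨⟨0, rfl⟩⟩
    exact Nat.card_pos
  rw [hb] at h1
  haveI := (Nat.card_pos_iff.1 h1).1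
  obtain ⟨k, hk⟩ := (inferInstance : Nonempty {k // x k =
    (⟨i, cbar f⟩ : Σ i, (K i →+* AlgebraicClosure ℚ))})
  fin_cases k
  · have h2 : (⟨i, f⟩ : Σ i, (K i →+* AlgebraicClosure ℚ)) = ⟨i, cbar f⟩ := hk
    exact Pool.Agent.H204R3.CM.cbar_ne f (eq_of_heq (Sigma.mk.inj h2).2).symm
  · have h2 : (⟨i, cbar f'⟩ : Σ i, (K i →+* AlgebraicClosure ℚ)) = ⟨i, cbar f⟩ := hk
    have h3 : Pool.Agent.H204R3.CM.cbar f' = Pool.Agent.H204R3.CM.cbar f :=
      eq_of_heq (Sigma.mk.inj h2).2
    have h4 := congrArg Pool.Agent.H204R3.CM.cbar h3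
    rw [Pool.Agent.H204R3.CM.cbar_cbar, Pool.Agent.H204R3.CM.cbar_cbar] at h4
    exact hne' h4.symm

theorem generate_upTo {n m : ℕ} {π : ∀ i, K i} (hW : π ∈ Z.Weil p K n)
    (hgen : ∀ i, IntermediateField.adjoin ℚ {π i} = ⊤)
    (hbal : ∀ r ≤ m, ∀ x : Fin r → Σ i, (K i →+* AlgebraicClosure ℚ), Vanish p n π x →
      ZeroOne.Balanced x) : ZeroOne.PairingsGenerateUpTo p n m π := by
  classical
  have _ := isAlg
  intro Ω _ _ _ V _ _ _ F hF r t hr s hs c hc φ hφ
  let ι : AlgebraicClosure ℚ →+* Ω := (IsAlgClosed.lift : AlgebraicClosure ℚ →ₐ[ℚ] Ω)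
  have hbij : ∀ i, Function.Bijective (fun f : K i →+* AlgebraicClosure ℚ => ι.comp f) := by
    intro i
    rw [Fintype.bijective_iff_injective_and_card]
    refine ⟨?_, ?_⟩
    · intro φ φ' h
      refine RingHom.ext fun x => ι.injective (RingHom.congr_fun h x)
    · rw [NumberField.Embeddings.card (K i) (AlgebraicClosure ℚ),
        NumberField.Embeddings.card (K i) Ω]
  -- an embedding is determined by the value at `π i`
  have hdet : ∀ i (f g : K i →+* AlgebraicClosure ℚ), f (π i) = g (π i) → f = g := by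
    intro i f g h
    let M : IntermediateField ℚ (K i) :=
      (RingHom.eqLocusField f g).toIntermediateField (fun r => by
        change f (algebraMap ℚ (K i) r) = g (algebraMap ℚ (K i) r)
        simp)
    have h3 : IntermediateField.adjoin ℚ {π i} ≤ M := by
      rw [IntermediateField.adjoin_le_iff, Set.singleton_subset_iff]
      exact h
    refine RingHom.ext fun x => ?_
    have hx : x ∈ IntermediateField.adjoin ℚ {π i} := by
      rw [hgen i]
      exact IntermediateField.mem_top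
    exact h3 hx
  have hpA : (p : AlgebraicClosure ℚ) ≠ 0 := by exact_mod_cast (Fact.out : p.Prime).ne_zero
  have hpΩ : (p : Ω) ≠ 0 := by exact_mod_cast (Fact.out : p.Prime).ne_zero
  have hconj : ∀ i (f : K i →+* AlgebraicClosure ℚ), (p : Ω) ^ n / ι (f (π i)) =
      ι ((cbar f) (π i)) := by
    intro i f
    have h0 : ι (f (π i)) ≠ 0 := by
      rw [map_ne_zero, map_ne_zero]
      exact weil_ne hW i
    rw [div_eq_iff h0]
    have h1 : f (π i) * (cbar f) (π i) = (p : AlgebraicClosure ℚ) ^ n := by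
      change f (π i) * f (IsCMField.complexConj (K i) (π i)) = _
      rw [← map_mul, weil_mul hW, map_pow, map_natCast]
    rw [← map_mul, mul_comm, h1, map_pow, map_natCast]
  let E : I → Set Ω := fun i => {z | ∃ f : K i →+* AlgebraicClosure ℚ, z = ι (f (π i))}
  refine multilinear_mixed V F (fun _ => (p : Ω) ^ n) E ?_ (fun _ => pow_ne_zero _ hpΩ) ?_ ?_ t s c
    ?_ φ hφ
  · rintro i _ ⟨f, rfl⟩
    refine ⟨?_, ?_⟩
    · rw [map_ne_zero, map_ne_zero]
      exact weil_ne hW i
    · rw [hconj]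
      intro h
      exact Pool.Agent.H204R3.CM.cbar_ne f (hdet i _ _ (ι.injective h))
  · intro i
    rw [← hF i]
    congr 1
    ext v
    constructor
    · rintro ⟨_, ⟨f, rfl⟩, h⟩
      exact ⟨ι.comp f, h⟩
    · rintro ⟨σ, h⟩
      obtain ⟨f, hf⟩ := (hbij i).2 σ
      refine ⟨_, ⟨f, rfl⟩, ?_⟩
      rw [h, ← hf]
      rfl
  · rintro i _ ⟨f, rfl⟩
    exact ⟨cbar f, hconj i f⟩
  · intro y hy hprod i z hz
    choose f hf using hy
    let x : Fin r → Σ i, (K i →+* AlgebraicClosure ℚ) := fun k => ⟨t k, f k⟩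
    have hvan : Vanish p n π x := by
      intro J
      have hp1 : (1 : ℝ) < p := by exact_mod_cast (Fact.out : p.Prime).one_lt
      have h1 : (∏ k, (f k) (π (t k))) ^ (s * 2) = (((p : AlgebraicClosure ℚ) ^ n) ^ r) ^ s := by
        apply ι.injective
        rw [map_pow, map_prod, map_pow, map_pow, map_pow, map_natCast, ← hc, pow_mul,
          ← Finset.prod_congr rfl fun k _ => hf k, hprod, ← pow_mul, ← pow_mul, mul_comm]
      have h2 := congrArg (fun a => Real.logb p ‖J a‖) h1
      simp only [map_pow, map_prod, map_natCast, norm_pow, norm_prod] at h2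
      rw [norm_p_alg, Real.logb_pow, Real.logb_pow, Real.logb_pow, Real.logb_pow, Real.logb_inv,
        Real.logb_self_eq_one hp1, Real.logb_prod] at h2
      · have h3 : ∑ k, dv p n π (x k).1 (J.comp (x k).2) =
            -(2 * ∑ k, Real.logb p ‖J ((f k) (π (t k)))‖) - r * n := by
          have h4 : ∀ k, dv p n π (x k).1 (J.comp (x k).2) =
              -(2 * Real.logb p ‖J ((f k) (π (t k)))‖) - n := by
            intro k
            change 2 * (- Real.logb p ‖J ((f k) (π (t k)))‖) - n = _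
            ring
          rw [Finset.sum_congr rfl fun k _ => h4 k, Finset.sum_sub_distrib, Finset.sum_neg_distrib,
            ← Finset.mul_sum, Finset.sum_const, Finset.card_univ, Fintype.card_fin, nsmul_eq_mul]
        rw [h3]
        have h5 : (s : ℝ) ≠ 0 := by exact_mod_cast hs.ne'
        push_cast at h2
        have h6 : (s : ℝ) * (-(2 * ∑ k, Real.logb p ‖J ((f k) (π (t k)))‖) - r * n) = 0 := by
          linarith
        exact (mul_eq_zero.1 h6).resolve_left h5
      · intro k _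
        rw [norm_ne_zero_iff, map_ne_zero, map_ne_zero]
        exact weil_ne hW (t k)
    have hb := hbal r hr x hvan
    obtain ⟨g, rfl⟩ := hz
    have hsig : ∀ (a b : I) (f : K a →+* AlgebraicClosure ℚ) (g : K b →+* AlgebraicClosure ℚ),
        (a = b ∧ ι (f (π a)) = ι (g (π b))) ↔
          (⟨a, f⟩ : Σ i, (K i →+* AlgebraicClosure ℚ)) = ⟨b, g⟩ := by
      intro a b f g
      constructor
      · rintro ⟨rfl, h⟩
        rw [hdet a f g (ι.injective h)]
      · intro h
        cases h
        exact ⟨rfl, rfl⟩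
    have key : ∀ g : K i →+* AlgebraicClosure ℚ,
        Nat.card {k // t k = i ∧ y k = ι (g (π i))} =
        Nat.card {k // x k = (⟨i, g⟩ : Σ i, (K i →+* AlgebraicClosure ℚ))} := by
      intro g
      refine Nat.card_congr (Equiv.subtypeEquivRight fun k => ?_)
      rw [hf k]
      change (t k = i ∧ ι ((f k) (π (t k))) = ι (g (π i))) ↔
        (⟨t k, f k⟩ : Σ i, (K i →+* AlgebraicClosure ℚ)) = ⟨i, g⟩
      exact hsig (t k) i (f k) g
    have h7 := key g
    have h8 := key (cbar g)
    rw [h7, hconj, h8]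
    exact hb ⟨i, g⟩

theorem good_upTo {n m : ℕ} (hm : 2 ≤ m) {π : ∀ i, K i} (hW : π ∈ Z.Weil p K n)
    (hbal : ∀ r ≤ m, ∀ x : Fin r → Σ i, (K i →+* AlgebraicClosure ℚ), Vanish p n π x →
      ZeroOne.Balanced x) : ZeroOne.GoodUpTo p n m π := by
  have h1 := powers_of_balanced hW (hbal 2 hm)
  refine ⟨h1, generate_upTo hW (fun i => ?_) hbal⟩
  have := h1 i 1 one_pos
  rwa [pow_one] at this

end

end Pool.Agent.K4H22.Y
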