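import Mathlib
import Pool.Agent.K4H22.Y.Pos
import Pool.Agent.K4H22.Y.CountG
import Pool.Agent.K4H22.Z.Main

/-!
# The zero-one law in a bounded number of variables
-/

set_option autoImplicit false
set_option linter.unusedSectionVars false

namespace Pool.Agent.K4H22.Y

open NumberField Module Pool.Agent.W527 Pool.Agent.K4H22.Z
open Pool.Agent.K4H22.ZeroOne (cbar)

noncomputable section

variable {p : ℕ} [Fact p.Prime] {I : Type} [Fintype I] {K : I → Type} [∀ i, Field (K i)]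
  [∀ i, NumberField (K i)] [∀ i, IsCMField (K i)]

open Classical in
/-- An unbalanced sequence which is not locally balanced is rarely a relation. -/
theorem count_seq {r : ℕ} (x : Fin r → Σ i, (K i →+* AlgebraicClosure ℚ))
    (hx : ZeroOne.LocallyBalanced p x → ZeroOne.Balanced x) :
    ∃ C : ℝ, 0 ≤ C ∧ ∀ n : ℕ,
      (n : ℝ) * (((WF p K n).filter fun π => ¬ ZeroOne.Balanced x ∧ Vanish p n π x).card : ℝ) ≤
        C * (WF p K n).card := by
  by_cases hb : ZeroOne.Balanced x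
  · refine ⟨0, le_rfl, fun n => ?_⟩
    have h1 : ((WF p K n).filter fun π => ¬ ZeroOne.Balanced x ∧ Vanish p n π x) = ∅ :=
      Finset.filter_false_of_mem fun π _ h => h.1 hb
    rw [h1, Finset.card_empty, Nat.cast_zero, mul_zero, zero_mul]
  · have hlb : ¬ ZeroOne.LocallyBalanced p x := fun h => hb (hx h)
    unfold ZeroOne.LocallyBalanced at hlb
    push Not at hlb
    obtain ⟨e, h1, h2, J, hJ⟩ := hlb
    obtain ⟨n₀, π₀, ρ, hW, hρ, hdv⟩ := exists_weil e h1 h2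
    have hsum : ∑ k, dv p n₀ π₀ (x k).1 (J.comp (x k).2) ≠ 0 := by
      rw [Finset.sum_congr rfl fun k _ => hdv (x k).1 (J.comp (x k).2), ← Finset.mul_sum]
      refine mul_ne_zero hρ.ne' ?_
      exact_mod_cast hJ
    have hne : ∃ i, ∃ τ : K i →+* PadicAlgCl p, dv p n₀ π₀ i τ ≠ 0 := by
      by_contra hcon
      push Not at hcon
      exact hsum (Finset.sum_eq_zero fun k _ => hcon _ _)
    obtain ⟨C, hC0, hC⟩ := count_general hW hne 1
      (fun n π => ∑ k, dv p n π (x k).1 (J.comp (x k).2) = 0) (by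
        intro n w S hS
        refine Finset.card_le_one.2 fun j hj j' hj' => ?_
        have key : ∀ j ∈ S, ∑ k, dv p n w (x k).1 (J.comp (x k).2) -
            2 * j * ∑ k, dv p n₀ π₀ (x k).1 (J.comp (x k).2) = 0 := by
          intro j hj
          obtain ⟨b, hb1, hb2⟩ := hS j hj
          rw [← hb1, ← hb2, Finset.mul_sum, ← Finset.sum_sub_distrib]
        have h3 := key j hj
        have h4 := key j' hj'
        have h5 : ((j : ℝ) - j') * ∑ k, dv p n₀ π₀ (x k).1 (J.comp (x k).2) = 0 := by linarith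
        have h6 := (mul_eq_zero.1 h5).resolve_right hsum
        have h7 : (j : ℝ) = j' := by linarith
        exact_mod_cast h7)
    refine ⟨C, hC0, fun n => le_trans ?_ (hC n)⟩
    refine mul_le_mul_of_nonneg_left ?_ (Nat.cast_nonneg n)
    have h3 : ((WF p K n).filter fun π => ¬ ZeroOne.Balanced x ∧ Vanish p n π x).card ≤
        ((WF p K n).filter fun π => ∑ k, dv p n π (x k).1 (J.comp (x k).2) = 0).card := by
      apply Finset.card_le_card
      intro π hπ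
      rw [Finset.mem_filter] at hπ ⊢
      exact ⟨hπ.1, hπ.2.2 J⟩
    exact_mod_cast h3

theorem law_pos {m : ℕ} (hm : 2 ≤ m)
    (h : ∀ r ≤ m, ∀ x : Fin r → Σ i, (K i →+* AlgebraicClosure ℚ),
      ZeroOne.LocallyBalanced p x → ZeroOne.Balanced x) :
    ∃ C : ℝ, ∀ n : ℕ, (n : ℝ) * {π ∈ ZeroOne.Weil K p n | ¬ ZeroOne.GoodUpTo p n m π}.ncard ≤
      C * (ZeroOne.Weil K p n).ncard := by
  classical
  let T := Σ r : Fin (m + 1), (Fin r.1 → Σ i, (K i →+* AlgebraicClosure ℚ))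
  have hC : ∀ x : T, ∃ C : ℝ, 0 ≤ C ∧ ∀ n : ℕ,
      (n : ℝ) * (((WF p K n).filter fun π => ¬ ZeroOne.Balanced x.2 ∧
        Vanish p n π x.2).card : ℝ) ≤ C * (WF p K n).card := fun x =>
    count_seq x.2 (h x.1.1 (Nat.lt_succ_iff.1 x.1.2) x.2)
  choose C hC0 hC using hC
  refine ⟨∑ x : T, C x, fun n => ?_⟩
  have h1 : {π ∈ ZeroOne.Weil K p n | ¬ ZeroOne.GoodUpTo p n m π} ⊆
      ((Finset.univ.biUnion fun x : T => (WF p K n).filter fun π =>
        ¬ ZeroOne.Balanced x.2 ∧ Vanish p n π x.2 : Finset (∀ i, K i)) : Set (∀ i, K i)) := by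
    rintro π ⟨hW, hb⟩
    by_contra hcon
    apply hb
    refine good_upTo hm hW fun r hr x hx => ?_
    by_contra hnb
    apply hcon
    rw [Finset.mem_coe, Finset.mem_biUnion]
    refine ⟨⟨⟨r, Nat.lt_succ_iff.2 hr⟩, x⟩, Finset.mem_univ _, Finset.mem_filter.2 ⟨?_, hnb, hx⟩⟩
    exact mem_WF.2 hW
  have h2 : ({π ∈ ZeroOne.Weil K p n | ¬ ZeroOne.GoodUpTo p n m π}.ncard : ℝ) ≤
      ∑ x : T, (((WF p K n).filter fun π =>
        ¬ ZeroOne.Balanced x.2 ∧ Vanish p n π x.2).card : ℝ) := by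
    have h3 := Set.ncard_le_ncard h1 (Finset.finite_toSet _)
    rw [Set.ncard_coe_finset] at h3
    have h4 := h3.trans Finset.card_biUnion_le
    exact_mod_cast h4
  have h5 : (WF p K n).card = (ZeroOne.Weil K p n).ncard := WF_card n
  calc (n : ℝ) * {π ∈ ZeroOne.Weil K p n | ¬ ZeroOne.GoodUpTo p n m π}.ncard
      ≤ n * ∑ x : T, (((WF p K n).filter fun π =>
        ¬ ZeroOne.Balanced x.2 ∧ Vanish p n π x.2).card : ℝ) :=
        mul_le_mul_of_nonneg_left h2 (Nat.cast_nonneg n)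
    _ = ∑ x : T, (n : ℝ) * (((WF p K n).filter fun π =>
        ¬ ZeroOne.Balanced x.2 ∧ Vanish p n π x.2).card : ℝ) := Finset.mul_sum _ _ _
    _ ≤ ∑ x : T, C x * (WF p K n).card := Finset.sum_le_sum fun x _ => hC x n
    _ = (∑ x : T, C x) * (ZeroOne.Weil K p n).ncard := by
        rw [← Finset.sum_mul, h5]

/-- The sum over a locally balanced sequence of the slopes of a Weil number is zero. -/
theorem vanish_of_locallyBalanced {n : ℕ} {π : ∀ i, K i} (hW : π ∈ Z.Weil p K n) {r : ℕ}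
    (x : Fin r → Σ i, (K i →+* AlgebraicClosure ℚ)) (hx : ZeroOne.LocallyBalanced p x) :
    Vanish p n π x := by
  have h1 : ∀ y : (Σ i, (K i →+* PadicAlgCl p)), ∃ q : ℚ, dv p n π y.1 y.2 = q := by
    intro y
    obtain ⟨q, hq⟩ := slope_rational (p := p) (weil_ne hW y.1) y.2
    refine ⟨2 * q - n, ?_⟩
    unfold dv
    rw [hq]
    push_cast
    rfl
  choose q hq using h1
  intro J
  have h2 := hx (fun i τ => q ⟨i, τ⟩) (by
    intro i τ
    have h2 := dv_cbar hW i τ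
    rw [hq ⟨i, _⟩, hq ⟨i, τ⟩] at h2
    exact_mod_cast h2) (by
    intro i τ τ' h
    have h2 : dv p n π i τ = dv p n π i τ' := by
      rw [dv_eq, dv_eq, Same.sl_eq h]
    rw [hq ⟨i, τ⟩, hq ⟨i, τ'⟩] at h2
    exact_mod_cast h2) J
  rw [Finset.sum_congr rfl fun k _ => hq ⟨(x k).1, J.comp (x k).2⟩]
  exact_mod_cast h2

theorem law_neg {m r : ℕ} (hr : r ≤ m) (x : Fin r → Σ i, (K i →+* AlgebraicClosure ℚ))
    (hx : ZeroOne.LocallyBalanced p x) (hb : ¬ ZeroOne.Balanced x) (n : ℕ) (π : ∀ i, K i)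
    (hW : π ∈ ZeroOne.Weil K p n) : ¬ ZeroOne.GoodUpTo p n m π := by
  rintro ⟨h1, h2⟩
  refine hb (balanced_of_upTo hW (fun i => ?_) h2 hr x (vanish_of_locallyBalanced hW x hx))
  have := h1 i 1 one_pos
  rwa [pow_one] at this

/-- An embedding with values in the `p`-adic numbers is the only one of its place. -/
theorem eq_of_same_padic {L : Type} [Field L] (s : L →+* ℚ_[p]) (τ' : L →+* PadicAlgCl p)
    (h : Same ((algebraMap ℚ_[p] (PadicAlgCl p)).comp s) τ') :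
    τ' = (algebraMap ℚ_[p] (PadicAlgCl p)).comp s := by
  refine RingHom.ext fun x => ?_
  by_contra hne
  have hpos : 0 < ‖τ' x - algebraMap ℚ_[p] (PadicAlgCl p) (s x)‖ :=
    norm_pos_iff.2 (sub_ne_zero.2 hne)
  obtain ⟨r, hr⟩ := Padic.rat_dense p (s x) hpos
  have h1 : ‖algebraMap ℚ_[p] (PadicAlgCl p) (s x) - (r : PadicAlgCl p)‖ = ‖s x - r‖ := by
    rw [← PadicAlgCl.norm_extends, map_sub, map_ratCast]
  have hc : (algebraMap ℚ_[p] (PadicAlgCl p)).comp s (x - (r : L)) =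
      algebraMap ℚ_[p] (PadicAlgCl p) (s x) - (r : PadicAlgCl p) := by
    rw [map_sub, map_ratCast]
    rfl
  have hd : τ' (x - (r : L)) = τ' x - (r : PadicAlgCl p) := by
    rw [map_sub, map_ratCast]
  have h2 : ‖τ' x - (r : PadicAlgCl p)‖ = ‖s x - r‖ := by
    rw [← h1, ← hc, ← hd]
    exact (h (x - (r : L))).symm
  have h4 : ‖τ' x - algebraMap ℚ_[p] (PadicAlgCl p) (s x)‖ ≤
      max ‖τ' x - (r : PadicAlgCl p)‖ ‖algebraMap ℚ_[p] (PadicAlgCl p) (s x) - r‖ := by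
    have h5 : τ' x - algebraMap ℚ_[p] (PadicAlgCl p) (s x) =
        (τ' x - r) + (r - algebraMap ℚ_[p] (PadicAlgCl p) (s x)) := by ring
    rw [h5, norm_sub_rev (algebraMap ℚ_[p] (PadicAlgCl p) (s x))]
    exact IsUltrametricDist.norm_add_le_max _ _
  rw [h1, h2, max_self] at h4
  exact absurd (lt_of_le_of_lt h4 hr) (lt_irrefl _)

/-- Embeddings of a number field extend to embeddings of the algebraic numbers. -/
theorem exists_extend {L : Type} [Field L] [NumberField L] (f : L →+* AlgebraicClosure ℚ)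
    (τ : L →+* PadicAlgCl p) : ∃ J : AlgebraicClosure ℚ →+* PadicAlgCl p, J.comp f = τ := by
  have h := alg_aux f
  let _ : Algebra L (AlgebraicClosure ℚ) := f.toAlgebra
  let _ : Algebra L (PadicAlgCl p) := τ.toAlgebra
  let J : AlgebraicClosure ℚ →ₐ[L] PadicAlgCl p := IsAlgClosed.lift
  exact ⟨J.toRingHom, RingHom.ext fun x => J.commutes x⟩

theorem balanced_of_degree_one (hs : ∀ i, Nonempty (K i →+* ℚ_[p])) {r : ℕ}
    (x : Fin r → Σ i, (K i →+* AlgebraicClosure ℚ)) (hx : ZeroOne.LocallyBalanced p x) :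
    ZeroOne.Balanced x := by
  classical
  intro y
  obtain ⟨s⟩ := hs y.1
  let s' : K y.1 →+* ℚ_[p] := s.comp (IsCMField.complexConj (K y.1) : K y.1 →+* K y.1)
  let τ : K y.1 →+* PadicAlgCl p := (algebraMap ℚ_[p] (PadicAlgCl p)).comp s
  have hτ1 : ∀ τ' : K y.1 →+* PadicAlgCl p, Same τ τ' → τ' = τ := eq_of_same_padic s
  have hτ2 : ∀ τ' : K y.1 →+* PadicAlgCl p, Same (cbar τ) τ' → τ' = cbar τ :=
    eq_of_same_padic s'
  obtain ⟨J, hJ⟩ := exists_extend y.2 τ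
  let bb : (Σ i, (K i →+* PadicAlgCl p)) → (Σ i, (K i →+* PadicAlgCl p)) :=
    fun x => ⟨x.1, cbar x.2⟩
  have hbb : ∀ x, bb (bb x) = x := fun x => by
    obtain ⟨k, g⟩ := x
    change (⟨k, Pool.Agent.H204R3.CM.cbar (Pool.Agent.H204R3.CM.cbar g)⟩ :
      Σ i, (K i →+* PadicAlgCl p)) = ⟨k, g⟩
    rw [Pool.Agent.H204R3.CM.cbar_cbar]
  have hbi : ∀ x y, bb x = y ↔ x = bb y := fun x y =>
    ⟨fun h => by rw [← h, hbb], fun h => by rw [h, hbb]⟩
  let jj : (Σ i, (K i →+* AlgebraicClosure ℚ)) → (Σ i, (K i →+* PadicAlgCl p)) :=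
    fun z => ⟨z.1, J.comp z.2⟩
  have hjj : Function.Injective jj := by
    rintro ⟨i, f⟩ ⟨i', f'⟩ h
    obtain ⟨h1, h2⟩ := Sigma.mk.inj h
    dsimp only at h1
    subst h1
    have h3 := eq_of_heq h2
    congr 1
    exact RingHom.ext fun z => J.injective (RingHom.congr_fun h3 z)
  have hjy : jj y = ⟨y.1, τ⟩ := by
    change (⟨y.1, J.comp y.2⟩ : Σ i, (K i →+* PadicAlgCl p)) = ⟨y.1, τ⟩
    rw [hJ]
  have hsm : ∀ (i : I) (τ₁ τ₂ : K i →+* PadicAlgCl p), Same τ₁ τ₂ →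
      ((⟨i, τ₁⟩ : Σ i, (K i →+* PadicAlgCl p)) = jj y → (⟨i, τ₂⟩ : Σ i, (K i →+* PadicAlgCl p)) =
        jj y) ∧ ((⟨i, τ₁⟩ : Σ i, (K i →+* PadicAlgCl p)) = bb (jj y) →
        (⟨i, τ₂⟩ : Σ i, (K i →+* PadicAlgCl p)) = bb (jj y)) := by
    intro i τ₁ τ₂ h
    rw [hjy]
    constructor
    · intro h1
      obtain ⟨h2, h3⟩ := Sigma.mk.inj h1
      subst h2
      rw [eq_of_heq h3] at h
      rw [hτ1 τ₂ h]
    · intro h1
      obtain ⟨h2, h3⟩ := Sigma.mk.inj h1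
      dsimp only at h2
      subst h2
      rw [eq_of_heq h3] at h
      rw [hτ2 τ₂ h]
  have h := hx (fun i τ => (if (⟨i, τ⟩ : Σ i, (K i →+* PadicAlgCl p)) = jj y then 1 else 0) -
      (if (⟨i, τ⟩ : Σ i, (K i →+* PadicAlgCl p)) = bb (jj y) then 1 else 0)) (by
    intro i τ
    have h1 : ((⟨i, cbar τ⟩ : Σ i, (K i →+* PadicAlgCl p)) = jj y) ↔
        (⟨i, τ⟩ : Σ i, (K i →+* PadicAlgCl p)) = bb (jj y) := hbi ⟨i, τ⟩ (jj y)
    have h2 : ((⟨i, cbar τ⟩ : Σ i, (K i →+* PadicAlgCl p)) = bb (jj y)) ↔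
        (⟨i, τ⟩ : Σ i, (K i →+* PadicAlgCl p)) = jj y := by
      rw [show (⟨i, cbar τ⟩ : Σ i, (K i →+* PadicAlgCl p)) = bb ⟨i, τ⟩ from rfl, hbi, hbb]
    simp only [h1, h2]
    ring) (by
    intro i τ₁ τ₂ h
    have h1 : ((⟨i, τ₁⟩ : Σ i, (K i →+* PadicAlgCl p)) = jj y) ↔
        (⟨i, τ₂⟩ : Σ i, (K i →+* PadicAlgCl p)) = jj y :=
      ⟨(hsm i τ₁ τ₂ h).1, (hsm i τ₂ τ₁ (Same.symm h)).1⟩
    have h2 : ((⟨i, τ₁⟩ : Σ i, (K i →+* PadicAlgCl p)) = bb (jj y)) ↔
        (⟨i, τ₂⟩ : Σ i, (K i →+* PadicAlgCl p)) = bb (jj y) :=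
      ⟨(hsm i τ₁ τ₂ h).2, (hsm i τ₂ τ₁ (Same.symm h)).2⟩
    simp only [h1, h2]) J
  have h1 : ∀ k, (⟨(x k).1, J.comp (x k).2⟩ : Σ i, (K i →+* PadicAlgCl p)) = jj (x k) :=
    fun k => rfl
  have h2 : ∀ k, (jj (x k) = jj y) ↔ x k = y := fun k => hjj.eq_iff
  have h3 : ∀ k, (jj (x k) = bb (jj y)) ↔ x k = ⟨y.1, cbar y.2⟩ := fun k => by
    rw [show bb (jj y) = jj ⟨y.1, cbar y.2⟩ from rfl]
    exact hjj.eq_iff
  simp only [h1, h2, h3] at h
  rw [Finset.sum_sub_distrib, Finset.sum_boole, Finset.sum_boole, sub_eq_zero] at h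
  have h4 : (Finset.univ.filter fun k => x k = y).card =
      (Finset.univ.filter fun k => x k = ⟨y.1, cbar y.2⟩).card := by exact_mod_cast h
  rw [Nat.card_eq_fintype_card, Nat.card_eq_fintype_card, Fintype.card_subtype,
    Fintype.card_subtype]
  exact h4

theorem growth_of_ne {n₀ : ℕ} {π₀ : ∀ i, K i} (h₀ : π₀ ∈ Z.Weil p K n₀) {i : I}
    {τ : K i →+* PadicAlgCl p} (hτ : dv p n₀ π₀ i τ ≠ 0) :
    ∃ c : ℝ, 0 < c ∧ ∀ M : ℕ, c * M ≤ (Z.Weil p K (2 * M)).ncard := by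
  classical
  let Y : ∀ i, K i := fun i => π₀ i ^ 2 / (p : K i) ^ n₀
  have hYs : ∀ i, IsSlide p (Y i) := fun i => slide_of_weil h₀ i
  have hYsl : ∀ i (τ : K i →+* PadicAlgCl p), sl τ (Y i) = dv p n₀ π₀ i τ := fun i τ =>
    sl_slide_of_weil h₀ i τ
  have hp0 : ∀ i, (p : K i) ≠ 0 := fun i => by exact_mod_cast (Fact.out : p.Prime).ne_zero
  have hslp : ∀ (M : ℕ) i (τ : K i →+* PadicAlgCl p), sl τ ((p : K i) ^ M) = M := by
    intro M i τ
    rw [sl_pow, sl_p, mul_one]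
  have hb : ∀ x : (Σ i, (K i →+* PadicAlgCl p)), |dv p n₀ π₀ x.1 x.2| ≤
      ∑ x : (Σ i, (K i →+* PadicAlgCl p)), |dv p n₀ π₀ x.1 x.2| := fun x =>
    Finset.single_le_sum (f := fun x : (Σ i, (K i →+* PadicAlgCl p)) => |dv p n₀ π₀ x.1 x.2|)
      (fun y _ => abs_nonneg _) (Finset.mem_univ x)
  generalize (∑ x : (Σ i, (K i →+* PadicAlgCl p)), |dv p n₀ π₀ x.1 x.2|) = D at hb
  have hD0 : 0 < D := lt_of_lt_of_le (abs_pos.2 hτ) (hb ⟨i, τ⟩)
  refine ⟨1 / D, by positivity, fun M => ?_⟩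
  set N := ⌊(M : ℝ) / D⌋₊ + 1 with hN
  have hND : ∀ j : Fin N, ((j : ℕ) : ℝ) * D ≤ M := by
    intro j
    have h1 : (j : ℕ) ≤ ⌊(M : ℝ) / D⌋₊ := Nat.lt_succ_iff.1 j.2
    have h2 : ((j : ℕ) : ℝ) ≤ (M : ℝ) / D :=
      le_trans (by exact_mod_cast h1) (Nat.floor_le (by positivity))
    rwa [le_div_iff₀ hD0] at h2
  have hmem : ∀ j : Fin N, (Y ^ (j : ℕ) * fun i => (p : K i) ^ M) ∈ Z.Weil p K (2 * M) := by
    intro j
    refine mul_mem_weil (pow_mem_weil M) (fun i => (hYs i).pow j) fun i τ => ?_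
    change 0 ≤ sl τ (Y i ^ (j : ℕ)) + sl τ ((p : K i) ^ M)
    rw [sl_pow, hYsl, hslp M]
    have h1 := hb ⟨i, τ⟩
    dsimp only at h1
    generalize dv p n₀ π₀ i τ = δ at h1 ⊢
    have h2 := neg_abs_le δ
    have h4 : (0 : ℝ) ≤ (j : ℕ) := Nat.cast_nonneg _
    have h6 : ((j : ℕ) : ℝ) * |δ| ≤ (j : ℕ) * D := mul_le_mul_of_nonneg_left h1 h4
    have h5 := hND j
    have h7 : ((j : ℕ) : ℝ) * (-|δ|) ≤ (j : ℕ) * δ := mul_le_mul_of_nonneg_left h2 h4
    linarith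
  have hinj : Function.Injective (fun j : Fin N => (Y ^ (j : ℕ) * fun i => (p : K i) ^ M)) := by
    intro j j' h
    have h1 := congrFun h i
    have h2 := congrArg (sl τ) h1
    change sl τ (Y i ^ (j : ℕ) * (p : K i) ^ M) = sl τ (Y i ^ (j' : ℕ) * (p : K i) ^ M) at h2
    have e1 : ∀ k : ℕ, sl τ (Y i ^ k) = k * dv p n₀ π₀ i τ := fun k => by rw [sl_pow, hYsl]
    rw [sl_mul τ (pow_ne_zero _ (hYs i).ne_zero) (pow_ne_zero _ (hp0 i)),
      sl_mul τ (pow_ne_zero _ (hYs i).ne_zero) (pow_ne_zero _ (hp0 i)), e1, e1] at h2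
    have h3 : (((j : ℕ) : ℝ) - ((j' : ℕ) : ℝ)) * dv p n₀ π₀ i τ = 0 := by linarith
    have h4 := (mul_eq_zero.1 h3).resolve_right hτ
    have h5 : ((j : ℕ) : ℝ) = ((j' : ℕ) : ℝ) := by linarith
    exact Fin.ext (by exact_mod_cast h5)
  have h1 : (Set.range (fun j : Fin N => (Y ^ (j : ℕ) * fun i => (p : K i) ^ M))).ncard ≤
      (Z.Weil p K (2 * M)).ncard := by
    apply Set.ncard_le_ncard
    · rintro _ ⟨j, rfl⟩
      exact hmem j
    · exact weil_finite _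
  rw [← Set.image_univ, Set.ncard_image_of_injective _ hinj, Set.ncard_univ,
    Nat.card_eq_fintype_card, Fintype.card_fin] at h1
  have h2 : (M : ℝ) / D < N := by
    rw [hN]
    push_cast
    exact Nat.lt_floor_add_one _
  have h3 : (N : ℝ) ≤ (Z.Weil p K (2 * M)).ncard := by exact_mod_cast h1
  have h4 : 1 / D * (M : ℝ) = M / D := by ring
  rw [h4]
  exact (h2.le).trans h3

/-- If some field has a place of degree one above `p` there are many families. -/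
theorem growth_of_degree_one (i : I) (hs : Nonempty (K i →+* ℚ_[p])) :
    ∃ c : ℝ, 0 < c ∧ ∀ M : ℕ, c * M ≤ (ZeroOne.Weil K p (2 * M)).ncard := by
  classical
  obtain ⟨s⟩ := hs
  let s' : K i →+* ℚ_[p] := s.comp (IsCMField.complexConj (K i) : K i →+* K i)
  let τ : K i →+* PadicAlgCl p := (algebraMap ℚ_[p] (PadicAlgCl p)).comp s
  have hne : ¬ Same τ (cbar τ) := fun h =>
    Pool.Agent.H204R3.CM.cbar_ne τ (eq_of_same_padic s _ h)
  have hself : Same τ τ := fun _ => rfl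
  let e : ∀ k, (K k →+* PadicAlgCl p) → ℚ := Function.update (fun _ _ => 0) i
    (fun τ' => (if Same τ' τ then 1 else 0) - (if Same τ' (cbar τ) then 1 else 0))
  have hei : e i = fun τ' => (if Same τ' τ then 1 else 0) - (if Same τ' (cbar τ) then 1 else 0) :=
    Function.update_self i _ _
  have hek : ∀ k, k ≠ i → e k = fun _ => 0 := fun k hk => Function.update_of_ne hk _ _
  obtain ⟨n₀, π₀, ρ, hW, hρ, hdv⟩ := exists_weil e (by
    intro k τ'
    by_cases hk : k = i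
    · subst hk
      rw [hei]
      have e1 : Same (Pool.Agent.H204R3.CM.cbar τ') τ ↔ Same τ' (cbar τ) := by
        constructor
        · intro h
          have h2 := Same.cbar h
          rw [Pool.Agent.H204R3.CM.cbar_cbar] at h2
          exact h2
        · intro h
          have h2 := Same.cbar h
          have h3 : Pool.Agent.H204R3.CM.cbar (cbar τ) = τ :=
            Pool.Agent.H204R3.CM.cbar_cbar τ
          rw [h3] at h2
          exact h2
      have e2 : Same (Pool.Agent.H204R3.CM.cbar τ') (cbar τ) ↔ Same τ' τ := by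
        constructor
        · intro h
          have h2 := Same.cbar h
          have h3 : Pool.Agent.H204R3.CM.cbar (cbar τ) = τ :=
            Pool.Agent.H204R3.CM.cbar_cbar τ
          rw [Pool.Agent.H204R3.CM.cbar_cbar, h3] at h2
          exact h2
        · intro h
          exact Same.cbar h
      simp only [e1, e2]
      ring
    · rw [hek k hk, neg_zero]) (by
    intro k τ₁ τ₂ h
    by_cases hk : k = i
    · subst hk
      rw [hei]
      have e1 : ∀ τ₃, Same τ₁ τ₃ ↔ Same τ₂ τ₃ := fun τ₃ =>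
        ⟨fun h1 => (Same.symm h).trans h1, fun h1 => Same.trans h h1⟩
      simp only [e1]
    · rw [hek k hk])
  refine growth_of_ne hW (i := i) (τ := τ) ?_
  rw [hdv, hei]
  refine mul_ne_zero hρ.ne' ?_
  dsimp only
  rw [if_pos hself, if_neg hne]
  norm_num

end

end Pool.Agent.K4H22.Y
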